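import Pool.Agent.H950_Spine.Main

/-!
# Burr's conjecture up to a constant: directed paths with pendant oriented trees of bounded height

Let `T` be an oriented tree with `k` arcs which consists of a directed path with `m` arcs (the spine) and
of oriented trees attached to the vertices of the spine. Suppose that the vertices have levels `0, …, h`,
such that the whole spine has the level `a` and every arc outside of the spine goes from a level to the
next one. Then every digraph of chromatic number at least `h (4 k - 3) + m + 1` contains `T`. For `h ≥ 1`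
this number is at most `(4 h + 1) k`.

Proof. We eliminate pairs `(v, i)`, `v` a vertex of `D` and `i ≤ h`, as long as possible, where `(v, i)` can
be eliminated if `v` has less than `k` out-neighbours `w` for which `(w, i + 1)` is still there (`i < h`),
or less than `k` in-neighbours `w` for which `(w, i - 1)` is still there (`i > 0`). Let `S` be the set of
the vertices `v` for which `(v, a)` survives. The other vertices can be coloured with `h (4 k - 3)`
colours. So `S` induces a digraph which is not `m`-colourable, it contains a directed path with `m` arcs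
(Gallai, Roy), and the rest of `T` is added greedily.
-/

set_option autoImplicit false

namespace Pool.Agent.Results.MP_6241b7_co.DirectedSpine

/-- `T` is the oriented tree with the vertices `0, …, k` in which `0 → 1 → ⋯ → m` is a directed path (the
spine), every vertex `v > m` is joined by one arc, in one of the two directions, to its parent `par v`,
which comes before `v`, and there are no other arcs. -/
structure IsSpinedTree {k : ℕ} (T : Digraph (Fin (k + 1))) (m : ℕ)
    (par : Fin (k + 1) → Fin (k + 1)) : Prop where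
  spine : ∀ i j : Fin (k + 1), i.val + 1 = j.val → j.val ≤ m → T.Adj i j
  parent : ∀ v : Fin (k + 1), m < v.val → par v < v ∧ (T.Adj (par v) v ∨ T.Adj v (par v))
  oriented : ∀ u v, T.Adj u v → ¬ T.Adj v u
  arcs : ∀ u v : Fin (k + 1), T.Adj u v → (u.val + 1 = v.val ∧ v.val ≤ m) ∨
    (m < v.val ∧ u = par v) ∨ (m < u.val ∧ v = par u)

/-- The vertices of `T` have levels `0, …, h`: the spine has the level `a`, and every arc outside of the
spine goes from a level to the next one. -/
structure HasLevels {k : ℕ} (T : Digraph (Fin (k + 1))) (m a h : ℕ)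
    (lev : Fin (k + 1) → ℕ) : Prop where
  spine : ∀ v : Fin (k + 1), v.val ≤ m → lev v = a
  bound : ∀ v, lev v ≤ h
  step : ∀ u v : Fin (k + 1), T.Adj u v → (m < u.val ∨ m < v.val) → lev v = lev u + 1

/-- **Directed paths with pendant oriented trees of bounded height.** -/
theorem result (k h m a : ℕ) (hk : 1 ≤ k) (hmk : m ≤ k) (T : Digraph (Fin (k + 1)))
    (par : Fin (k + 1) → Fin (k + 1)) (lev : Fin (k + 1) → ℕ)
    (hT : IsSpinedTree T m par) (hlev : HasLevels T m a h lev) :
    (∀ (V : Type) [Fintype V] (D : Digraph V),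
      ((h * (4 * k - 3) + m + 1 : ℕ) : ℕ∞) ≤ (SimpleGraph.fromRel D.Adj).chromaticNumber →
      ∃ f : Fin (k + 1) → V, Function.Injective f ∧ ∀ u v, T.Adj u v → D.Adj (f u) (f v)) ∧
    (1 ≤ h → h * (4 * k - 3) + m + 1 ≤ (4 * h + 1) * k) := by
  classical
  refine ⟨?_, ?_⟩
  swap
  · intro hh
    obtain ⟨q, rfl⟩ : ∃ q, k = q + 1 := ⟨k - 1, by omega⟩
    have e1 : 4 * (q + 1) - 3 = 4 * q + 1 := by omega
    rw [e1]
    nlinarith
  intro V _ D hD
  have hno : ¬ (SimpleGraph.fromRel D.Adj).Colorable (h * (4 * k - 3) + m) := by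
    intro hc
    have h1 := hD.trans hc.chromaticNumber_le
    have h2 : h * (4 * k - 3) + m + 1 ≤ h * (4 * k - 3) + m := by exact_mod_cast h1
    omega
  have hah : a ≤ h := by
    have h1 := hlev.spine 0 (Nat.zero_le _)
    have h2 := hlev.bound 0
    omega
  let T' : ℕ → ℕ → Prop := fun x y => ∃ (hx : x < k + 1) (hy : y < k + 1), T.Adj ⟨x, hx⟩ ⟨y, hy⟩
  let par' : ℕ → ℕ := fun v => if hv : v < k + 1 then (par ⟨v, hv⟩).val else 0
  let lev' : ℕ → ℕ := fun v => if hv : v < k + 1 then lev ⟨v, hv⟩ else a
  have hp : ∀ v (hv : v < k + 1), par' v = (par ⟨v, hv⟩).val := by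
    intro v hv
    simp only [par', hv, dif_pos]
  have hl : ∀ v (hv : v < k + 1), lev' v = lev ⟨v, hv⟩ := by
    intro v hv
    simp only [lev', hv, dif_pos]
  obtain ⟨f, hf1, hf2⟩ := Pool.Agent.H950_Spine.main D.Adj k h m a hk hmk hah hno T' par' lev'
    (by
      intro i hi
      rw [hl i (by omega)]
      exact hlev.spine _ hi)
    (by
      intro v hv
      rw [hl v (by omega)]
      exact hlev.bound _)
    (by
      intro v hmv hv
      have hv' : v < k + 1 := by omega
      obtain ⟨h1, h2⟩ := hT.parent ⟨v, hv'⟩ hmv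
      rw [hp v hv', hl v hv', hl _ (par ⟨v, hv'⟩).2]
      refine ⟨h1, ?_⟩
      rcases h2 with h2 | h2
      · exact Or.inl ⟨⟨(par ⟨v, hv'⟩).2, hv', h2⟩, hlev.step _ _ h2 (Or.inr hmv)⟩
      · exact Or.inr ⟨⟨hv', (par ⟨v, hv'⟩).2, h2⟩, hlev.step _ _ h2 (Or.inl hmv)⟩)
    (by
      rintro x y hx hy ⟨hx', hy', hxy⟩
      rcases hT.arcs _ _ hxy with h1 | h1 | h1
      · exact Or.inl h1
      · refine Or.inr (Or.inl ⟨h1.1, ?_, ?_⟩)
        · rw [hp y hy', ← h1.2]
        · rw [hl x hx', hl y hy']
          exact hlev.step _ _ hxy (Or.inr h1.1)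
      · refine Or.inr (Or.inr ⟨h1.1, ?_, ?_⟩)
        · rw [hp x hx', ← h1.2]
        · rw [hl x hx', hl y hy']
          exact hlev.step _ _ hxy (Or.inl h1.1))
  refine ⟨fun v => f v.val, ?_, ?_⟩
  · intro u v huv
    exact Fin.ext (hf1 _ (by omega) _ (by omega) huv)
  · intro u v huv
    exact hf2 _ (by omega) _ (by omega) ⟨u.2, v.2, huv⟩

end Pool.Agent.Results.MP_6241b7_co.DirectedSpine
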